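import Pool.Agent.H88.OT.Targets

/-!
# Relations with at least three ordinates
-/

set_option autoImplicit false

open Complex MeasureTheory Set

namespace Pool.Agent.H51.OT

open Pool.Agent.H88.OT
open Pool.Agent.H23.GLH (PrimChar)
open Pool.Agent.H74.PP (ordMult)

lemma sum_cons {n : ℕ} (S : Fin (n + 1) → Finset ℝ) (f : (Fin (n + 1) → ℝ) → ℝ) :
    ∑ y ∈ Fintype.piFinset S, f y =
      ∑ a ∈ S 0, ∑ z ∈ Fintype.piFinset (fun j => S j.succ), f (Fin.cons a z) := by
  rw [← Finset.sum_product']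
  refine Finset.sum_nbij' (fun y => (y 0, Fin.tail y)) (fun p => Fin.cons p.1 p.2) ?_ ?_ ?_ ?_ ?_
  · intro y hy
    rw [Fintype.mem_piFinset] at hy
    rw [Finset.mem_product, Fintype.mem_piFinset]
    exact ⟨hy 0, fun j => hy j.succ⟩
  · intro p hp
    rw [Finset.mem_product, Fintype.mem_piFinset] at hp
    rw [Fintype.mem_piFinset]
    intro j
    refine Fin.cases ?_ (fun i => ?_) j
    · exact hp.1
    · exact hp.2 i
  · intro y _
    exact Fin.cons_self_tail y
  · intro p _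
    simp
  · intro y _
    simp

theorem pf_FK (hFI : T_FI) : T_FK := by
  classical
  intro χ k ψ C ε hC hε
  have hk0 : (0 : ℝ) ≤ k := Nat.cast_nonneg _
  obtain ⟨M, T₀, h⟩ := hFI χ (ψ 0) (ψ 1) (C * (k + 1)) ε (by nlinarith) hε
  refine ⟨M, T₀, ?_⟩
  intro T τ α S w hT hα hτ hS hM
  have hCT : 0 ≤ C * T := (abs_nonneg τ).trans hτ
  have hCC : C ≤ C * (k + 1) := by nlinarith
  have hinv : 1 / (C * (k + 1)) ≤ 1 / C := one_div_le_one_div_of_le (by linarith) hCC
  set R : Fin k → Finset ℝ := fun j => S j.succ.succ with hR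
  set W0 : ℝ := ∑ y ∈ S 0, w 0 y with hW0
  set W1 : ℝ := ∑ y ∈ S 1, w 1 y with hW1
  -- the inner inequality
  have hin : ∀ z ∈ Fintype.piFinset R, (1 / 3 - ε) * (W0 * W1) * ∏ j, w j.succ.succ (z j) ≤
      ∑ a ∈ S 0, ∑ b ∈ S 1,
        if χ.L (1 / 2 + ((∑ j, α j * (Fin.cons a (Fin.cons b z : Fin (k + 1) → ℝ) :
          Fin (k + 2) → ℝ) j + τ : ℝ) : ℂ) * I) ≠ 0 then
          ∏ j, w j ((Fin.cons a (Fin.cons b z : Fin (k + 1) → ℝ) : Fin (k + 2) → ℝ) j) else 0 := by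
    intro z hz
    rw [Fintype.mem_piFinset] at hz
    set P : ℝ := ∏ j, w j.succ.succ (z j) with hP
    have hP0 : 0 ≤ P := Finset.prod_nonneg fun j _ => (hS _ _ (hz j)).2.2.1
    set τ' : ℝ := ∑ j, α j.succ.succ * z j + τ with hτ'
    have hτ'b : |τ'| ≤ C * (k + 1) * T := by
      have h1 : |∑ j : Fin k, α j.succ.succ * z j| ≤ ∑ _j : Fin k, C * T := by
        refine (Finset.abs_sum_le_sum_abs _ _).trans (Finset.sum_le_sum fun j _ => ?_)
        rw [abs_mul]
        have h2 := hS _ _ (hz j)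
        rw [abs_of_pos h2.1]
        exact mul_le_mul (hα _).2 h2.2.1 h2.1.le (by linarith)
      rw [Finset.sum_const, Finset.card_univ, Fintype.card_fin, nsmul_eq_mul] at h1
      calc |τ'| ≤ |∑ j : Fin k, α j.succ.succ * z j| + |τ| := abs_add_le _ _
        _ ≤ k * (C * T) + C * T := add_le_add h1 hτ
        _ = _ := by ring
    have h1 := h T (α 0) (α 1) τ' (S 0) (S 1) (w 0) (w 1) hT (hinv.trans (hα 0).1)
      ((hα 0).2.trans hCC) (hinv.trans (hα 1).1) ((hα 1).2.trans hCC) hτ'b (hS 0) (hS 1) hM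
    have h2 := mul_le_mul_of_nonneg_right h1 hP0
    refine h2.trans (le_of_eq ?_)
    rw [Finset.sum_mul]
    refine Finset.sum_congr rfl fun a _ => ?_
    rw [Finset.sum_mul]
    refine Finset.sum_congr rfl fun b _ => ?_
    have e0 : (Fin.cons a (Fin.cons b z : Fin (k + 1) → ℝ) : Fin (k + 2) → ℝ) 1 = b := rfl
    have e1 : (∑ j, α j * (Fin.cons a (Fin.cons b z : Fin (k + 1) → ℝ) :
          Fin (k + 2) → ℝ) j + τ : ℝ) = α 0 * a + α 1 * b + τ' := by
      rw [Fin.sum_univ_succ, Fin.sum_univ_succ]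
      simp only [Fin.cons_zero, Fin.cons_succ, Fin.succ_zero_eq_one, e0]
      rw [hτ']
      ring
    have e2 : ∏ j, w j ((Fin.cons a (Fin.cons b z : Fin (k + 1) → ℝ) : Fin (k + 2) → ℝ) j) =
        w 0 a * w 1 b * P := by
      rw [Fin.prod_univ_succ, Fin.prod_univ_succ]
      simp only [Fin.cons_zero, Fin.cons_succ, Fin.succ_zero_eq_one, e0]
      rw [hP]
      ring
    rw [e1, e2]
    split_ifs
    · rfl
    · rw [zero_mul]
  have hsum := Finset.sum_le_sum hin
  have e3 : ∏ j, ∑ y ∈ S j, w j y = W0 * W1 * ∑ z ∈ Fintype.piFinset R, ∏ j, w j.succ.succ (z j) := by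
    rw [Fin.prod_univ_succ, Fin.prod_univ_succ, ← Finset.prod_univ_sum]
    simp only [Fin.succ_zero_eq_one]
    rw [hW0, hW1, hR]
    ring
  rw [e3]
  calc (1 / 3 - ε) * (W0 * W1 * ∑ z ∈ Fintype.piFinset R, ∏ j, w j.succ.succ (z j))
      = ∑ z ∈ Fintype.piFinset R, (1 / 3 - ε) * (W0 * W1) * ∏ j, w j.succ.succ (z j) := by
        rw [← mul_assoc, Finset.mul_sum]
    _ ≤ _ := hsum
    _ = _ := by
        rw [sum_cons]
        rw [Finset.sum_comm]
        refine Finset.sum_congr rfl fun a _ => ?_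
        rw [sum_cons, Finset.sum_comm]
        rfl

end Pool.Agent.H51.OT
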